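import Pool.Agent.Helper43.GD.St

/-!
# Project GD, module RR
-/

set_option autoImplicit false

namespace Pool.Agent.Helper72.GD

open Pool.Agent.Helper43.GD

theorem hRR : StRR := by
  intro L A _ _ Q a d b ha hd hab
  obtain ⟨u, hu⟩ : ∃ u : Lˣ, u = d⁻¹ * a := ⟨_, rfl⟩
  have huU : u ∈ Q.U := by
    rw [hu]
    exact Q.U.mul_mem (Q.U.inv_mem hd) ha
  have huv : ((d⁻¹ : Lˣ) : L) * (a : L) = (u : L) := by
    rw [hu, Units.val_mul]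
  have P : ((a⁻¹ : Lˣ) : L) * (a : L) = 1 := a.inv_mul
  have R : ((d⁻¹ : Lˣ) : L) * (d : L) = 1 := d.inv_mul
  have hui : ((u⁻¹ : Lˣ) : L) = ((a⁻¹ : Lˣ) : L) + b := by
    rw [hu, mul_inv, inv_inv, Units.val_mul]
    linear_combination ((a⁻¹ : Lˣ) : L) * hab + b * P
  have e1 : Q.E (a : L) * Q.F b =
      Q.om a * Q.E (-(a : L)) * Q.F (((a⁻¹ : Lˣ) : L) + b) := by
    unfold Sys.om
    rw [Q.E_neg, Q.Fadd, Q.F_neg]
    group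
  have e2 : Q.F ((u⁻¹ : Lˣ) : L) = Q.E (u : L) * (Q.om u)⁻¹ * Q.E (u : L) := by
    unfold Sys.om
    rw [Q.F_neg]
    group
  have e3 : Q.om a * Q.E ((u : L) - (a : L)) * (Q.om a)⁻¹ = Q.F (((d⁻¹ : Lˣ) : L) * b) := by
    rw [((Q.weyl a).1 ha).1, ← huv]
    congr 1
    linear_combination (((a⁻¹ : Lˣ) : L) - ((a⁻¹ : Lˣ) : L) * ((d⁻¹ : Lˣ) : L) +
      ((d⁻¹ : Lˣ) : L) * b) * P - ((a⁻¹ : Lˣ) : L) * R +
      ((a⁻¹ : Lˣ) : L) * ((d⁻¹ : Lˣ) : L) * hab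
  have e4 : Q.om a * (Q.om u)⁻¹ = Q.h d * Q.h d := by
    have hdu : a = d * u := by
      rw [hu, mul_inv_cancel_left]
    rw [Q.om_eq ha, Q.om_eq huU]
    have h1 : Q.h a = Q.h d * Q.h u := by
      rw [← Q.h_mul hd huU, ← hdu]
    have h2 : Q.h u * Q.h d = Q.h d * Q.h u := Q.h_comm huU hd
    rw [h1]
    calc Q.h d * Q.h u * (Q.h d * Q.h u) * Q.w * (Q.h u * Q.h u * Q.w)⁻¹
        = Q.h d * (Q.h u * Q.h d) * (Q.h u)⁻¹ := by group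
      _ = Q.h d * Q.h d := by
        rw [h2]
        group
  rw [huv, e1, ← hui, e2, ← e3, ← e4, sub_eq_add_neg, Q.Eadd, Q.E_neg]
  have h3 : Q.E (u : L) * (Q.E (a : L))⁻¹ = (Q.E (a : L))⁻¹ * Q.E (u : L) := by
    rw [← Q.E_neg, Q.E_comm]
  rw [h3]
  group

end Pool.Agent.Helper72.GD
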